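import Pool.Agent.R798.Chain.Data

/-!
# A cubic graph with `ir < γ < i < β₀ < Γ < IR`
-/

set_option autoImplicit false

namespace Pool.Agent.Results.MP_93f3b8_co.StrictChain

open Pool.Agent.R798.Chain

/-- There is a (finite, simple) cubic graph with `ir < γ < i < β₀ < Γ < IR`. -/
theorem result : ∃ (V : Type) (_ : Fintype V) (_ : DecidableEq V) (G : SimpleGraph V),
    Cubic G ∧ ir G < gamma G ∧ gamma G < idom G ∧ idom G < beta G ∧ beta G < Gam G ∧
      Gam G < IR G := by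
  refine ⟨((Fin 16 ⊕ Fin 18) ⊕ Fin 6) ⊕ Fin 6, inferInstance, inferInstance,
    ((ofTable 16 tA ⊕g ofTable 18 tB) ⊕g ofTable 6 tK) ⊕g ofTable 6 tP,
    cubic_sum (cubic_sum (cubic_sum cubicA cubicB) cubicK) cubicP, ?_⟩
  simp only [ir_sum, gamma_sum, idom_sum, beta_sum, Gam_sum, IR_sum]
  have a1 := ir_lt_gamma_A
  have a2 := gamma_le_idom (ofTable 16 tA)
  have a3 := idom_lt_beta_A
  have a4 := beta_le_Gam (ofTable 16 tA)
  have a5 := Gam_le_IR (ofTable 16 tA)
  have b1 := ir_le_gamma (ofTable 18 tB)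
  have b2 := gamma_le_idom (ofTable 18 tB)
  have b3 := idom_le_beta (ofTable 18 tB)
  have b4 := beta_le_Gam (ofTable 18 tB)
  have b5 := Gam_lt_IR_B
  have c1 := ir_le_gamma (ofTable 6 tK)
  have c2 := gamma_lt_idom_K
  have c3 := idom_le_beta (ofTable 6 tK)
  have c4 := beta_le_Gam (ofTable 6 tK)
  have c5 := Gam_le_IR (ofTable 6 tK)
  have d1 := ir_le_gamma (ofTable 6 tP)
  have d2 := gamma_le_idom (ofTable 6 tP)
  have d3 := idom_le_beta (ofTable 6 tP)
  have d4 := beta_lt_Gam_P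
  have d5 := Gam_le_IR (ofTable 6 tP)
  omega

end Pool.Agent.Results.MP_93f3b8_co.StrictChain
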